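import Pool.Agent.H356R3.FM.BdR2

set_option autoImplicit false

/-!
The fraction field of the tilt of the ring of integers of `ℂ_[p]` is algebraically closed.
-/

namespace Pool.Agent.H410R3.AC

open Polynomial Pool.Agent.H356R3.FM

variable (p : ℕ) [hp : Fact p.Prime]

theorem oc_root (G : (OC p)[X]) (hG : G.Monic) (hd : 0 < G.natDegree) :
    ∃ a : OC p, G.IsRoot a := by
  have hdeg : (G.map (algebraMap (OC p) (PadicComplex p))).degree ≠ 0 := by
    rw [hG.degree_map]
    intro h
    have : G.natDegree = 0 := natDegree_eq_of_degree_eq_some h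
    omega
  obtain ⟨x, hx⟩ := IsAlgClosed.exists_root _ hdeg
  have hint : IsIntegral (OC p) x := ⟨G, hG, by rwa [IsRoot, eval_map] at hx⟩
  obtain ⟨a, ha⟩ := IsIntegrallyClosed.algebraMap_eq_of_integral hint
  refine ⟨a, ?_⟩
  have h1 : algebraMap (OC p) (PadicComplex p) (G.eval a) = 0 := by
    rw [← ha, IsRoot, eval_map, eval₂_hom] at hx
    exact hx
  exact (FaithfulSMul.algebraMap_injective (OC p) (PadicComplex p)) (by rw [h1, map_zero])

theorem oc_split (n : ℕ) : ∀ G : (OC p)[X], G.Monic → G.natDegree = n →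
    ∃ s : Multiset (OC p), Multiset.card s = n ∧ G = (s.map (fun a => X - C a)).prod := by
  induction n with
  | zero =>
    intro G hG hd
    exact ⟨0, rfl, by simpa using hG.natDegree_eq_zero.1 hd⟩
  | succ n ih =>
    intro G hG hd
    obtain ⟨a, ha⟩ := oc_root p G hG (by omega)
    obtain ⟨Q, hQ⟩ := dvd_iff_isRoot.2 ha
    have hQm : Q.Monic := (monic_X_sub_C a).of_mul_monic_left (by rw [← hQ]; exact hG)
    have hQd : Q.natDegree = n := by
      have := (monic_X_sub_C a).natDegree_mul hQm
      rw [← hQ, hd, natDegree_X_sub_C] at this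
      omega
    obtain ⟨s, hs, hsQ⟩ := ih Q hQm hQd
    exact ⟨a ::ₘ s, by simp [hs], by rw [Multiset.map_cons, Multiset.prod_cons, ← hsQ, hQ]⟩

theorem prod_lower (x : OC p) (r : ℝ) (hr : 0 ≤ r) (s : Multiset (OC p)) :
    (∀ a ∈ s, r ≤ ‖((x - a : OC p) : PadicComplex p)‖) →
      r ^ Multiset.card s ≤ ‖(((s.map (fun a => x - a)).prod : OC p) : PadicComplex p)‖ := by
  induction s using Multiset.induction_on with
  | empty =>
    intro _
    simp
  | cons a s ih =>
    intro h
    have h1 := ih (fun b hb => h b (Multiset.mem_cons_of_mem hb))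
    have h2 := h a (Multiset.mem_cons_self a s)
    rw [Multiset.card_cons, Multiset.map_cons, Multiset.prod_cons, pow_succ']
    have h3 : (((x - a) * (s.map (fun a => x - a)).prod : OC p) : PadicComplex p) =
      ((x - a : OC p) : PadicComplex p) *
        (((s.map (fun a => x - a)).prod : OC p) : PadicComplex p) := rfl
    rw [h3, norm_mul]
    exact mul_le_mul h2 h1 (pow_nonneg hr _) (norm_nonneg _)

/-- an approximate root is close to a root -/
theorem close_root (k n : ℕ) (hn : 0 < n) (hk : n ≤ p ^ k) (s : Multiset (OC p))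
    (hs : Multiset.card s = n) (x : OC p)
    (hx : (s.map (fun a => x - a)).prod ∈ Ideal.span {(p : OC p)}) :
    ∃ a ∈ s, (x - a) ^ (p ^ k) ∈ Ideal.span {(p : OC p)} := by
  classical
  have hne : s.toFinset.Nonempty := by
    rw [Multiset.toFinset_nonempty]
    intro h
    rw [h] at hs
    simp at hs
    omega
  obtain ⟨a, ha, hmin⟩ := s.toFinset.exists_min_image
    (fun a => ‖((x - a : OC p) : PadicComplex p)‖) hne
  refine ⟨a, Multiset.mem_toFinset.1 ha, ?_⟩
  have h1 := prod_lower p x _ (norm_nonneg _) s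
    (fun b hb => hmin b (Multiset.mem_toFinset.2 hb))
  have hx' := (mem_span_pow_p p 1 _).mp (by rw [pow_one]; exact hx)
  rw [hs] at h1
  have hle1 : ‖((x - a : OC p) : PadicComplex p)‖ ≤ 1 := norm_OC_le p _
  have h2 : ‖(((x - a) ^ (p ^ k) : OC p) : PadicComplex p)‖ ≤ ((p : ℝ)⁻¹) ^ 1 := by
    have e : (((x - a) ^ (p ^ k) : OC p) : PadicComplex p) =
      ((x - a : OC p) : PadicComplex p) ^ (p ^ k) := rfl
    rw [e, norm_pow]
    exact (pow_le_pow_of_le_one (norm_nonneg _) hle1 hk).trans (h1.trans hx')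
  have h3 := (mem_span_pow_p p 1 _).mpr h2
  rwa [pow_one] at h3

/-- the data needed over `O/p` -/
theorem modp_roots (k : ℕ) (h : (ModP (OC p) p)[X]) (hm : h.Monic) (hd : 0 < h.natDegree)
    (hk : h.natDegree ≤ p ^ k) :
    (∃ x, h.IsRoot x) ∧ {y : ModP (OC p) p | ∃ x, h.IsRoot x ∧ x ^ (p ^ k) = y}.Finite := by
  classical
  set π : OC p →+* ModP (OC p) p := Ideal.Quotient.mk (Ideal.span {(p : OC p)}) with hπ
  have hsurj : Function.Surjective π := Ideal.Quotient.mk_surjective
  have hl : h ∈ lifts π := by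
    rw [mem_lifts]
    exact Polynomial.map_surjective π hsurj h
  obtain ⟨G, hG1, hG2, hG3⟩ := lifts_and_natDegree_eq_and_monic hl hm
  obtain ⟨s, hs, hsG⟩ := oc_split p h.natDegree G hG3 hG2
  have heval : ∀ x : OC p, h.eval (π x) = π ((s.map (fun a => x - a)).prod) := by
    intro x
    rw [← hG1, eval_map, eval₂_hom, hsG, eval_multiset_prod, Multiset.map_map]
    simp
  constructor
  · obtain ⟨a, ha⟩ := oc_root p G hG3 (by omega)
    refine ⟨π a, ?_⟩
    rw [IsRoot, ← hG1, eval_map, eval₂_hom]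
    rw [IsRoot] at ha
    rw [ha, map_zero]
  · refine Set.Finite.subset (s.toFinset.finite_toSet.image (fun a => (π a) ^ (p ^ k))) ?_
    rintro y ⟨x, hx, rfl⟩
    obtain ⟨x, rfl⟩ := hsurj x
    rw [IsRoot, heval, hπ, Ideal.Quotient.eq_zero_iff_mem] at hx
    obtain ⟨a, ha, hxa⟩ := close_root p k h.natDegree hd hk s hs x hx
    refine ⟨a, by simpa using ha, ?_⟩
    have h1 : (π x - π a) ^ (p ^ k) = 0 := by
      rw [← map_sub, ← map_pow, hπ, Ideal.Quotient.eq_zero_iff_mem]
      exact hxa
    rw [sub_pow_char_pow] at h1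
    exact (sub_eq_zero.1 h1).symm

/-- the reduction of a polynomial over the tilt -/
noncomputable def red (g : (Flat p)[X]) (m : ℕ) : (ModP (OC p) p)[X] := g.map (PreTilt.coeff m)

theorem red_step (g : (Flat p)[X]) (m : ℕ) (x : ModP (OC p) p) (hx : (red p g (m + 1)).IsRoot x) :
    (red p g m).IsRoot (x ^ p) := by
  have h1 : red p g m = (red p g (m + 1)).map (frobenius (ModP (OC p) p) p) := by
    unfold red
    rw [Polynomial.map_map]
    congr 1
    refine RingHom.ext fun c => ?_
    rw [RingHom.comp_apply, frobenius_def, PreTilt.coeff_pow_p]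
  rw [IsRoot] at hx ⊢
  rw [h1, ← frobenius_def, eval_map, eval₂_hom, hx, map_zero]

theorem red_steps (g : (Flat p)[X]) (m n : ℕ) : ∀ x : ModP (OC p) p,
    (red p g (m + n)).IsRoot x → (red p g m).IsRoot (x ^ (p ^ n)) := by
  induction n with
  | zero => intro x hx; simpa using hx
  | succ n ih =>
    intro x hx
    have := ih (x ^ p) (red_step p g (m + n) x hx)
    rwa [← pow_mul, ← pow_succ'] at this

/-- a monic polynomial of positive degree over the tilt has a root -/
theorem flat_root (g : (Flat p)[X]) (hg : g.Monic) (hd : 0 < g.natDegree) :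
    ∃ z : Flat p, g.IsRoot z := by
  classical
  obtain ⟨k, hk⟩ : ∃ k, g.natDegree ≤ p ^ k :=
    ⟨g.natDegree, (Nat.lt_pow_self hp.out.one_lt).le⟩
  have hmon : ∀ m, (red p g m).Monic := fun m => hg.map _
  have hnd : ∀ m, (red p g m).natDegree = g.natDegree := fun m => hg.natDegree_map _
  have hmr := fun m => modp_roots p k (red p g m) (hmon m) (by rw [hnd]; exact hd)
    (by rw [hnd]; exact hk)
  let Z : ℕ → Set (ModP (OC p) p) := fun m =>
    {y | ∃ x, (red p g (m + k)).IsRoot x ∧ x ^ (p ^ k) = y}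
  have hZfin : ∀ m, (Z m).Finite := fun m => (hmr (m + k)).2
  have hZne : ∀ m, (Z m).Nonempty := fun m => by
    obtain ⟨x, hx⟩ := (hmr (m + k)).1
    exact ⟨x ^ (p ^ k), x, hx, rfl⟩
  have hZstep : ∀ i j, i ≤ j → ∀ y ∈ Z j, y ^ (p ^ (j - i)) ∈ Z i := by
    rintro i j hij y ⟨x, hx, rfl⟩
    refine ⟨x ^ (p ^ (j - i)), ?_, ?_⟩
    · apply red_steps p g (i + k) (j - i) x
      have : i + k + (j - i) = j + k := by omega
      rwa [this]
    · rw [← pow_mul, ← pow_mul, mul_comm]
  have : Finite (Z 0) := hZfin 0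
  have : ∀ i, Nonempty (Z i) := fun i => (hZne i).to_subtype
  obtain ⟨f, hf⟩ := exists_seq_forall_proj_of_forall_finite (α := fun i => Z i)
    (fun {i j} hij y => ⟨(y : ModP (OC p) p) ^ (p ^ (j - i)), hZstep i j hij _ y.2⟩)
    (by
      intro i a
      apply Subtype.ext
      simp)
    (by
      intro i j k hij hjk a
      apply Subtype.ext
      show ((a : ModP (OC p) p) ^ (p ^ (k - j))) ^ (p ^ (j - i)) = (a : ModP (OC p) p) ^ (p ^ (k - i))
      rw [← pow_mul, ← pow_add]
      congr 2
      omega)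
    (by
      intro i a
      have : Finite (Z (i + 1)) := hZfin (i + 1)
      exact Set.toFinite _)
  have hfs : ∀ n, ((f (n + 1) : Z (n + 1)) : ModP (OC p) p) ^ p = f n := by
    intro n
    have := congrArg Subtype.val (hf (Nat.le_succ n))
    simpa using this
  let z : Flat p := (⟨fun n => (f n : ModP (OC p) p), hfs⟩ : Perfection (ModP (OC p) p) p)
  have hz : ∀ n, PreTilt.coeff n z = (f n : ModP (OC p) p) := fun n => rfl
  refine ⟨z, ?_⟩
  have key : ∀ n, PreTilt.coeff n (g.eval z) = 0 := by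
    intro n
    have h1 : PreTilt.coeff n (g.eval z) = (red p g n).eval (PreTilt.coeff n z) := by
      unfold red
      rw [eval_map, eval₂_hom]
    rw [h1, hz]
    obtain ⟨x, hx, hxf⟩ := (f n).2
    rw [← hxf]
    exact red_steps p g n k x hx
  exact Perfection.ext key

theorem isAlgClosed_tilt : IsAlgClosed (FractionRing (Flat p)) := by
  refine IsAlgClosed.of_exists_root _ fun f hf hfi => ?_
  set b := IsLocalization.commonDenom (nonZeroDivisors (Flat p)) f.support f.coeff with hb
  have hb0 : algebraMap (Flat p) (FractionRing (Flat p)) (b : Flat p) ≠ 0 := by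
    intro h
    have := (FaithfulSMul.algebraMap_injective (Flat p) (FractionRing (Flat p)))
      (by rw [h, map_zero] : algebraMap (Flat p) (FractionRing (Flat p)) (b : Flat p) =
        algebraMap (Flat p) (FractionRing (Flat p)) 0)
    exact nonZeroDivisors.ne_zero b.2 this
  have hl := IsLocalization.scaleRoots_commonDenom_mem_lifts (nonZeroDivisors (Flat p)) f
    (by rw [hf.leadingCoeff]; exact one_mem _)
  obtain ⟨g, hg1, hg2, hg3⟩ := lifts_and_natDegree_eq_and_monic hl
    ((monic_scaleRoots_iff _).2 hf)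
  have hfd : 0 < f.natDegree := hfi.natDegree_pos
  obtain ⟨z, hz⟩ := flat_root p g hg3 (by rw [hg2, natDegree_scaleRoots]; exact hfd)
  refine ⟨algebraMap (Flat p) (FractionRing (Flat p)) z /
    algebraMap (Flat p) (FractionRing (Flat p)) (b : Flat p), ?_⟩
  have h1 : (f.scaleRoots (algebraMap (Flat p) (FractionRing (Flat p)) (b : Flat p))).eval
      (algebraMap (Flat p) (FractionRing (Flat p)) z) = 0 := by
    rw [← hg1, eval_map, eval₂_hom]
    rw [IsRoot] at hz
    rw [hz, map_zero]
  have h2 := scaleRoots_eval₂_mul (RingHom.id (FractionRing (Flat p)))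
    (p := f) (r := algebraMap (Flat p) (FractionRing (Flat p)) z /
    algebraMap (Flat p) (FractionRing (Flat p)) (b : Flat p))
    (s := algebraMap (Flat p) (FractionRing (Flat p)) (b : Flat p))
  rw [eval₂_id, eval₂_id] at h2
  simp only [RingHom.id_apply] at h2
  rw [mul_div_cancel₀ _ hb0, h1] at h2
  rcases mul_eq_zero.1 h2.symm with h3 | h3
  · exact absurd h3 (pow_ne_zero _ hb0)
  · exact h3

end Pool.Agent.H410R3.AC
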