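import Pool.Agent.Helper849.TA.Stmts
import Pool.Agent.H410R3.AC.A1

set_option autoImplicit false

namespace Pool.Agent.H410R3.AC

open Pool.Agent.Helper849.TA

theorem taskAC : TaskAC := fun p _ => isAlgClosed_tilt p

end Pool.Agent.H410R3.AC
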